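import Pool.Agent.Lib.MP_bc213e_ag.Hyp.Defs

/-! Log smooth klt points. -/

namespace Pool.Agent.Lib.MP_bc213e_ag.Hyp

variable {K : Type} [Field K] [Algebra ℂ K]

/-- Near the point `p` of `Spec A` the differentials of `ζ₁, …, ζₙ` generate the module of
differentials, and `g` generates `m (K + Δ)` for `Δ = ∑ l, (d l / m) {ζ l = 0}` with `d l < m`. -/
def SncKlt {n : ℕ} (D : Fin n → Derivation ℂ K K) (m : ℕ) (g : K) {A : Subalgebra ℂ K}
    (p : Ideal A) : Prop :=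
  ∃ (ζ : Fin n → A) (d : Fin n → ℕ) (s r r' : A), s ∉ p ∧ r ∉ p ∧ r' ∉ p ∧ (∀ l, d l < m) ∧
    (∀ ω, s • ω ∈ Submodule.span A (Set.range fun l => KaehlerDifferential.D ℂ A (ζ l))) ∧
    r * jac D (fun l => (ζ l : K)) ^ m = r' * g * ∏ l, (ζ l : K) ^ d l

end Pool.Agent.Lib.MP_bc213e_ag.Hyp
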