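import Pool.Agent.Lib.MP_bc213e_ag.DA.Der
import Pool.Agent.Lib.MP_bc213e_ag.DD.Klt
import Pool.Agent.Lib.MP_bc213e_ag.Jet.Tay
import Pool.Agent.Lib.MP_bc213e_ag.Jet.LemG
import Pool.Agent.Lib.MP_bc213e_ag.KBB.Defs
import Pool.Agent.Lib.MP_bc213e_ag.TCI.Der1

/-! Shared definitions for the theorem on the top order Euler characteristic. -/

namespace Pool.Agent.Lib.MP_bc213e_ag.DD

open Pool.Agent.Lib.MP_bc213e_ag.Hyp Pool.Agent.Lib.MP_bc213e_ag.DA Pool.Agent.Lib.MP_bc213e_ag.Jet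
open scoped TensorProduct

noncomputable section

/-- The data of the theorem. `M = K (u)` is the function field of `W = P (O + L)`. -/
structure Su (K M ι : Type) [Field K] [Algebra ℂ K] [Field M] [Algebra K M] (n : ℕ) where
  x : ι → Kˣ
  g : ι → Kˣ
  i₀ : ι
  one : x i₀ = 1
  frac : ∀ i, IsFractionRing (chart x i) K
  norm : ∀ i, IsIntegrallyClosed (chart x i)
  τ : Fin n → K
  hτ : IsTranscendenceBasis ℂ τ
  D : Fin n → Derivation ℂ K K
  hD : ∀ a b, D a (τ b) = if a = b then 1 else 0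
  m : ℕ
  mpos : m ≠ 0
  eff : ∀ i (u : Fin n → K), (∀ b, u b ∈ chart x i) → jac D u ^ m / g i ∈ chart x i
  d₀ : ℕ
  klt : ∀ i (p : Ideal (chart x i)), p.IsPrime →
    (d₀ : Cardinal) < Algebra.trdeg ℂ (chart x i ⧸ p) → SncKlt D m (g i) p
  cart : KBB.Cart x g
  nef : KBB.Nef x g
  u : M
  tr : Transcendental K u
  top : IntermediateField.adjoin K {u} = ⊤

section frame

variable {M κ : Type} [Field M] [Algebra ℂ M] [DecidableEq κ]

/-- A transcendence basis with the dual derivations. -/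
structure Frame (T : κ → M) (D : κ → Derivation ℂ M M) : Prop where
  tb : IsTranscendenceBasis ℂ T
  dual : ∀ c d, D c (T d) = if c = d then 1 else 0

theorem Frame.comm {T : κ → M} {D : κ → Derivation ℂ M M} (h : Frame T D) : Comm D :=
  fun c d f => by
    have e := TCI.der_eq_zero T h.tb ⁅D c, D d⁆ fun a => by
      rw [Derivation.commutator_apply, h.dual, h.dual]
      split_ifs <;> simp
    have e' := DFunLike.congr_fun e f
    rwa [Derivation.commutator_apply, Derivation.zero_apply, sub_eq_zero] at e'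

/-- A derivation along `β`. -/
structure TwD {A S N : Type} [CommRing A] [Algebra ℂ A] [CommRing S] [Algebra ℂ S]
    [AddCommGroup N] [Module S N] (β : A →ₐ[ℂ] S) (δ : A →+ N) : Prop where
  mul : ∀ f g, δ (f * g) = β f • δ g + β g • δ f
  const : ∀ c : ℂ, δ (algebraMap ℂ A c) = 0

/-- `T` is a system of etale coordinates of `O`. -/
structure Coo (O : Subalgebra ℂ M) (T : κ → M) (D : κ → Derivation ℂ M M) : Prop
    extends Frame T D where
  mem : ∀ c, T c ∈ O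
  pres : ∀ c, ∀ f ∈ O, D c f ∈ O
  et : ∀ (S N : Type) [CommRing S] [Algebra ℂ S] [AddCommGroup N] [Module S N] (β : O →ₐ[ℂ] S)
    (δ : O →+ N), TwD β δ → (∀ c, δ ⟨T c, mem c⟩ = 0) → δ = 0

end frame

section ten

variable (Ω : Type) {A E : Type} [CommRing Ω] [Algebra ℂ Ω] [CommRing A] [Algebra ℂ A] [CommRing E]
  [Algebra ℂ E] [Algebra Ω E] [IsScalarTower ℂ Ω E]

/-- The `Ω`-linear extension of `φ`. -/
def evT (φ : A →ₐ[ℂ] E) : Ω ⊗[ℂ] A →ₐ[Ω] E :=
  Algebra.TensorProduct.lift (Algebra.ofId Ω E) φ fun _ _ => Commute.all _ _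

@[simp] theorem evT_tmul (φ : A →ₐ[ℂ] E) (c : Ω) (f : A) :
    evT Ω φ (c ⊗ₜ f) = algebraMap Ω E c * φ f := rfl

end ten

/-- The general fibre of the fibration defined by the jets of the family `U`. -/
structure Fib (Ω E : Type) {M : Type} [Field Ω] [Algebra ℂ Ω] [Field E] [Algebra ℂ E] [Algebra Ω E]
    [IsScalarTower ℂ Ω E] [Field M] [Algebra ℂ M] (U : ℕ → Submodule ℂ M) where
  k : IntermediateField ℂ M
  e : M →ₐ[ℂ] Ω
  ι : M →ₐ[ℂ] E
  frac : ∀ z : E, ∃ s t : Ω ⊗[ℂ] M, evT Ω ι t ≠ 0 ∧ z * evT Ω ι t = evT Ω ι s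
  ker : RingHom.ker (evT Ω ι) =
    Ideal.span {s | ∃ y ∈ k, s = e y ⊗ₜ[ℂ] (1 : M) - (1 : Ω) ⊗ₜ[ℂ] y}
  bd : ∀ a, 0 < a → FiniteDimensional Ω (((U a).baseChange Ω).map (evT Ω ι).toLinearMap)
  large : ∀ g : ℕ, ∃ (S : Finset (Ω ⊗[ℂ] M)) (r : Ω ⊗[ℂ] M) (N : ℕ), evT Ω ι r ≠ 0 ∧
    (∀ s ∈ S, ∃ a, 0 < a ∧ s ∈ (U a).baseChange Ω ∧
      s ∈ Jet (RD ℂ Ω M) (RingHom.ker (evT Ω ι)) (g * a)) ∧
    ∀ p ∈ RingHom.ker (evT Ω ι) ^ N, r * p ∈ Ideal.span (S : Set (Ω ⊗[ℂ] M))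

namespace Su

variable {K M ι : Type} [Field K] [Algebra ℂ K] [Field M] [Algebra ℂ M] [Algebra K M] {n : ℕ}
  (S : Su K M ι n)

/-- The coordinates in `M`. -/
def X (j : ι) : M := algebraMap K M (S.x j)

/-- The fibre coordinate on the chart `j`. -/
def v (j : ι) : M := algebraMap K M (S.g j) * S.u

/-- The generators of the chart ring of `W`. -/
def gen (j : ι) : Option ι → M := fun o => o.elim (S.v j) fun l => S.X l / S.X j

/-- The chart ring of `W`. -/
def B (j : ι) : Subalgebra ℂ M := Algebra.adjoin ℂ (Set.range (S.gen j))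

/-- Sections of `m ξ + a H` for some `m`. -/
def U (a : ℕ) : Submodule ℂ M where
  carrier := {f | ∀ j, f / S.X j ^ a ∈ S.B j}
  add_mem' := fun ha hb j => by
    rw [add_div]
    exact add_mem (ha j) (hb j)
  zero_mem' := fun j => by
    rw [zero_div]
    exact zero_mem _
  smul_mem' := fun c s hs j => by
    rw [smul_div_assoc]
    exact Subalgebra.smul_mem _ (hs j) c

variable [IsScalarTower ℂ K M]

/-- Polynomials in `u` of degree at most `m`. -/
def Deg (m : ℕ) : Submodule ℂ M :=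
  ((Polynomial.degreeLE K m).map (Polynomial.aeval S.u).toLinearMap).restrictScalars ℂ

/-- Sections of `m ξ + a H`. -/
def V (m a : ℕ) : Submodule ℂ M := S.U a ⊓ S.Deg m

/-- The reference transcendence basis. -/
def tb : Option (Fin n) → M := fun o => o.elim S.u fun a => algebraMap K M (S.τ a)

omit [Algebra ℂ M] [IsScalarTower ℂ K M] in
theorem u_basis : IsTranscendenceBasis K fun _ : Unit => S.u := by
  have h1 : AlgebraicIndependent K fun _ : Unit => S.u :=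
    algebraicIndependent_unique_type_iff.2 S.tr
  refine h1.isTranscendenceBasis_iff_isAlgebraic.2 ?_
  rw [← IntermediateField.isAlgebraic_adjoin_iff_top, Set.range_const, S.top]
  exact ⟨fun z => isAlgebraic_algebraMap (⟨z, trivial⟩ : (⊤ : IntermediateField K M))⟩

theorem tb_basis : IsTranscendenceBasis ℂ S.tb :=
  (isTranscendenceBasis_equiv' ((Equiv.optionEquivSumPUnit.{0} (Fin n)).trans (Equiv.sumComm _ _))
    (by funext o; cases o <;> rfl)).2 (S.hτ.sumElim_comp S.u_basis)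

/-- The derivations dual to the reference basis. -/
def Dref : Option (Fin n) → Derivation ℂ M M := (TCI.exists_dual S.tb S.tb_basis).choose

theorem frame_ref : Frame S.tb S.Dref := ⟨S.tb_basis, (TCI.exists_dual S.tb S.tb_basis).choose_spec⟩

/-- `d F = jm F • Θ` for the form `Θ = u⁻² du dτ`. -/
def jm (F : Option (Fin n) → M) : M := S.u ^ 2 * (Matrix.of fun a b => S.Dref a (F b)).det

/-- `(d F) ^ m = mu F • Θ` for the form `Θ = u ^ (-m-1) (du dτ) ^ m`. -/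
def mu (F : Option (Fin n) → M) : M :=
  S.u ^ (S.m + 1) * (Matrix.of fun a b => S.Dref a (F b)).det ^ S.m

end Su

section W

variable {Ω E M : Type} [Field Ω] [Algebra ℂ Ω] [Field E] [Algebra ℂ E] [Algebra Ω E]
  [IsScalarTower ℂ Ω E] [Field M] [Algebra ℂ M] {b : ℕ}

theorem comm_rder {D : Fin b → Derivation ℂ M M} (h : Comm D) :
    Comm fun i => (rder (D i) : Derivation ℂ (Ω ⊗[ℂ] M) (Ω ⊗[ℂ] M)) :=
  fun i j s => rder_comm (h i j) s

variable (Ω) in
/-- Taylor expansion transversal to the fibre. -/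
def tayL [CharZero E] (ι : M →ₐ[ℂ] E) {D : Fin b → Derivation ℂ M M} (h : Comm D) :
    Ω ⊗[ℂ] M →ₐ[Ω] MvPowerSeries (Fin b) E where
  toRingHom := tay (comm_rder h) (evT Ω ι).toRingHom
  commutes' := fun c => by
    refine (tay_const (comm_rder h) (evT Ω ι).toRingHom fun i => ?_).trans ?_
    · rw [Algebra.algebraMap_eq_smul_one, rder_smul, Derivation.map_one_eq_zero, smul_zero]
    · exact (congrArg MvPowerSeries.C ((evT Ω ι).commutes c)).trans
        MvPowerSeries.algebraMap_apply.symm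

variable (Ω) in
/-- The leading coefficients at the exponent `α` of the elements of `V`. -/
def Wt [CharZero E] (ι : M →ₐ[ℂ] E) {D : Fin b → Derivation ℂ M M} (h : Comm D)
    (V : Submodule ℂ M) (α : Fin b →₀ ℕ) : Submodule Ω E :=
  Wl MonomialOrder.degLex ((V.baseChange Ω).map (tayL Ω ι h).toLinearMap) α

end W

theorem Comm.inl {k T κ κ' : Type} [CommRing k] [CommRing T] [Algebra k T]
    {D : κ ⊕ κ' → Derivation k T T} (h : Comm D) : Comm fun i => D (Sum.inl i) :=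
  fun _ _ => h _ _

/-- The fibration on `W`, with a transcendence basis `y` of the base. -/
structure Geo {K M ι : Type} [Field K] [Algebra ℂ K] [Field M] [Algebra ℂ M] [Algebra K M] {n : ℕ}
    (S : Su K M ι n) (Ω E : Type) [Field Ω] [Algebra ℂ Ω] [Field E] [Algebra ℂ E] [Algebra Ω E]
    [IsScalarTower ℂ Ω E] (b φ : ℕ) extends Fib Ω E S.U where
  univ : Cardinal.aleph0 ≤ Algebra.trdeg ℂ Ω
  y : Fin b → M
  y_mem : ∀ i, y i ∈ k
  y_alg : ∀ f ∈ k, IsAlgebraic (Algebra.adjoin ℂ (Set.range y)) f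
  z₀ : Fin φ → M
  D₀ : Fin b ⊕ Fin φ → Derivation ℂ M M
  frame : Frame (Sum.elim y z₀) D₀
  ε : Option (Fin n) ≃ Fin b ⊕ Fin φ

/-- The exponent `(1, …, 1)`. -/
def uno (b : ℕ) : Fin b →₀ ℕ := Finsupp.equivFunOnFinite.symm fun _ => 1

@[simp] theorem uno_apply {b : ℕ} (i : Fin b) : uno b i = 1 := rfl

/-- The derivations of the iterated power series ring. -/
def dA {R : Type} [CommRing R] {b φ : ℕ} (c : Fin b ⊕ Fin φ)
    (f : MvPowerSeries (Fin b) (MvPowerSeries (Fin φ) R)) :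
    MvPowerSeries (Fin b) (MvPowerSeries (Fin φ) R) :=
  c.elim (fun i => MvPowerSeries.pderiv _ i f)
    fun d β => MvPowerSeries.pderiv R d (MvPowerSeries.coeff β f)

namespace Geo

variable {K M ι : Type} [Field K] [Algebra ℂ K] [Field M] [Algebra ℂ M] [Algebra K M] {n : ℕ}
  {S : Su K M ι n} {Ω E : Type} [Field Ω] [Algebra ℂ Ω] [Field E] [Algebra ℂ E] [Algebra Ω E]
  [IsScalarTower ℂ Ω E] {b φ : ℕ} (G : Geo S Ω E b φ)

/-- The coordinates on the fibre. -/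
def X (j : ι) : E := G.ι (S.X j)

/-- The chart ring of the fibre. -/
def C (j : ι) : Subalgebra Ω E := Algebra.adjoin Ω (Set.range fun o => G.ι (S.gen j o))

/-- The restrictions to the fibre of the sections of `m ξ + a H`. -/
def R (a : ℕ) : Submodule Ω E := ((S.U a).baseChange Ω).map (evT Ω G.ι).toLinearMap

variable [IsScalarTower ℂ K M] [CharZero E]

/-- The leading coefficients of the sections of `m ξ + a H`. -/
def W (m a : ℕ) (α : Fin b →₀ ℕ) : Submodule Ω E :=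
  Wt Ω G.ι (Comm.inl G.frame.comm) (S.V m a) α

/-- Coordinates and Taylor expansions at the point `ev` of the chart `j` of the fibre. `τ` and `τF`
are linear extensions of algebra homomorphisms on the local rings `O` and `OF`. -/
structure Tau (c₀ e : ℕ) (j : ι) (ev : G.C j →ₐ[Ω] Ω) where
  z : Fin φ → M
  D : Fin b ⊕ Fin φ → Derivation ℂ M M
  O : Subalgebra ℂ M
  OF : Subalgebra Ω E
  τ : M →ₗ[ℂ] MvPowerSeries (Fin b) (MvPowerSeries (Fin φ) Ω)
  τF : E →ₗ[Ω] MvPowerSeries (Fin φ) Ω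
  dd : Fin φ →₀ ℕ
  mu1 : M
  z_mem : ∀ c, z c ∈ S.B j
  z_U : ∀ c, S.X j ^ e * z c ∈ S.U e
  coo : Coo O (Sum.elim G.y z) D
  mem_O : ∀ f, f ∈ O ↔ ∃ h ∈ S.B j, MvPowerSeries.constantCoeff (τF (G.ι h)) ≠ 0 ∧ h * f ∈ S.B j
  mem_OF : ∀ f, f ∈ OF ↔ ∃ h ∈ G.C j, MvPowerSeries.constantCoeff (τF h) ≠ 0 ∧ h * f ∈ G.C j
  τF_ev : ∀ f : G.C j, MvPowerSeries.constantCoeff (τF f) = ev f
  dd_lt : ∀ c, dd c < S.m
  dd_ev : ∀ c, dd c ≠ 0 → MvPowerSeries.constantCoeff (τF (G.ι (z c))) = 0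
  mu1_ne : mu1 ≠ 0
  mu1_mem : mu1 ∈ O
  mu1_inv : mu1⁻¹ ∈ O
  mu_eq : S.mu (Sum.elim G.y z ∘ G.ε) = mu1 * ∏ c, z c ^ dd c
  τ_one : τ 1 = 1
  τ_mul : ∀ f ∈ O, ∀ f' ∈ O, τ (f * f') = τ f * τ f'
  τF_one : τF 1 = 1
  τF_mul : ∀ f ∈ OF, ∀ f' ∈ OF, τF (f * f') = τF f * τF f'
  τ_der : ∀ c, ∀ f ∈ O, dA c (τ f) = τ (D c f)
  τ_const : ∀ f ∈ O, MvPowerSeries.constantCoeff (τ f) = τF (G.ι f)
  τF_inj : ∀ f ∈ OF, τF f = 0 → f = 0
  ord : ∀ a, 0 < a → ∀ w ∈ G.R a, τF (w / G.X j ^ a) ∈ Ord (Fin φ) Ω (c₀ * a) → w = 0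

end Geo

end

end Pool.Agent.Lib.MP_bc213e_ag.DD
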